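import Mathlib

/-!
# Infinitely many infinite Voronoi cells in graphs of non-linear growth

If an infinite connected locally finite graph does not have linear growth, then the number of
infinite Voronoi cells of finite sets of sites is unbounded.  Vertex-transitivity is not needed.
-/

namespace Pool.Agent.Results.MP_2b3d15_co.InfinitelyManyCells

variable {V : Type*}

/-- The ball of radius `r` about `v`. -/
def ball (G : SimpleGraph V) (v : V) (r : ℕ) : Set V := {u | G.dist v u ≤ r}

/-- `G` has linear growth: `|B(v, r)|` is bounded by a linear function of `r` (the same function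
for all `v`; in a vertex-transitive graph `|B(v, r)|` does not depend on `v`). -/
def HasLinearGrowth (G : SimpleGraph V) : Prop :=
  ∃ a b : ℕ, ∀ (v : V) (r : ℕ), (ball G v r).ncard ≤ a * r + b

/-- The Voronoi cell of the site `v` for the finite set `T` of sites. -/
def cell (G : SimpleGraph V) (v : V) (T : Finset V) : Set V :=
  {u | ∀ v' ∈ T, G.dist u v ≤ G.dist u v'}

/-- `I(T)`: the number of sites of `T` with infinite Voronoi cell. -/
noncomputable def infiniteCells (G : SimpleGraph V) (T : Finset V) : ℕ :=
  {v | v ∈ T ∧ (cell G v T).Infinite}.ncard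

/-- `M(G)`: the supremum of `I(T)` over the finite nonempty sets `T` of vertices. -/
noncomputable def maxInfiniteCells (G : SimpleGraph V) : ℕ∞ :=
  ⨆ (T : Finset V) (_ : T.Nonempty), (infiniteCells G T : ℕ∞)

/-- If all finite sets of sites have at most `N` infinite cells, balls have linear size. -/
theorem ball_bound [Infinite V] (G : SimpleGraph V) (hconn : G.Connected) (N : ℕ)
    (hN : ∀ T : Finset V, T.Nonempty → infiniteCells G T ≤ N) (o : V) (r : ℕ) :
    (ball G o r).ncard ≤ (2 * r + 1) * N := by
  classical
  by_cases hfin : (ball G o r).Finite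
  swap
  · rw [Set.Infinite.ncard hfin]; exact Nat.zero_le _
  set B : Finset V := hfin.toFinset with hB
  have hmem : ∀ v, v ∈ B ↔ G.dist o v ≤ r := fun v => by simp [hB, ball]
  have h1 : ∀ x v : V, v ∈ B → G.dist x v + r - G.dist x o < 2 * r + 1 := by
    intro x v hv
    have h2 : G.dist x v ≤ G.dist x o + G.dist o v := hconn.dist_triangle
    have h3 := (hmem v).1 hv
    omega
  have h2 : ∀ x v : V, v ∈ B → G.dist x o ≤ G.dist x v + r := by
    intro x v hv
    have h2 : G.dist x o ≤ G.dist x v + G.dist v o := hconn.dist_triangle
    have h3 := (hmem v).1 hv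
    rw [G.dist_comm] at h3
    omega
  let g : V → (B → Fin (2 * r + 1)) := fun x v => ⟨G.dist x v + r - G.dist x o, h1 x v v.2⟩
  obtain ⟨f, hf⟩ := Finite.exists_infinite_fiber g
  have hf' : (g ⁻¹' {f}).Infinite := Set.infinite_coe_iff.1 hf
  let φ : V → Fin (2 * r + 1) := fun v => if hv : v ∈ B then f ⟨v, hv⟩ else 0
  have hcard : B.card = ∑ j ∈ (Finset.univ : Finset (Fin (2 * r + 1))),
      (B.filter (fun v => φ v = j)).card :=
    Finset.card_eq_sum_card_fiberwise (fun v _ => Finset.mem_univ _)
  have hj : ∀ j : Fin (2 * r + 1), (B.filter (fun v => φ v = j)).card ≤ N := by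
    intro j
    set T := B.filter (fun v => φ v = j) with hT
    rcases T.eq_empty_or_nonempty with he | hne
    · rw [he]; exact Nat.zero_le _
    · refine le_trans ?_ (hN T hne)
      have hcell : ∀ v ∈ T, (cell G v T).Infinite := by
        intro v hv
        refine hf'.mono ?_
        intro x hx v' hv'
        have hx' : g x = f := hx
        rw [hT, Finset.mem_filter] at hv hv'
        have e1 : f ⟨v, hv.1⟩ = j := by
          have := hv.2
          simp only [φ, hv.1, dif_pos] at this
          exact this
        have e2 : f ⟨v', hv'.1⟩ = j := by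
          have := hv'.2
          simp only [φ, hv'.1, dif_pos] at this
          exact this
        have e3 : g x ⟨v, hv.1⟩ = g x ⟨v', hv'.1⟩ := by rw [hx', e1, e2]
        have e4 : G.dist x v + r - G.dist x o = G.dist x v' + r - G.dist x o :=
          congrArg Fin.val e3
        have e5 := h2 x v hv.1
        have e6 := h2 x v' hv'.1
        show G.dist x v ≤ G.dist x v'
        omega
      have hset : {v | v ∈ T ∧ (cell G v T).Infinite} = (T : Set V) := by
        ext v
        exact ⟨fun h => h.1, fun h => ⟨h, hcell v h⟩⟩
      unfold infiniteCells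
      rw [hset, Set.ncard_coe_finset]
  have hBcard : (ball G o r).ncard = B.card := Set.ncard_eq_toFinset_card _ hfin
  rw [hBcard, hcard]
  calc ∑ j ∈ (Finset.univ : Finset (Fin (2 * r + 1))), (B.filter (fun v => φ v = j)).card
      ≤ ∑ _j ∈ (Finset.univ : Finset (Fin (2 * r + 1))), N := Finset.sum_le_sum fun j _ => hj j
    _ = (2 * r + 1) * N := by simp

/-- **Answer to Q1: yes.**  For every infinite connected locally finite graph `G` without linear
growth, `M(G) = ∞`.  (This applies in particular to vertex-transitive graphs; transitivity is not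
used.) -/
theorem result [Infinite V] (G : SimpleGraph V) (hconn : G.Connected)
    (_hlf : ∀ v, (G.neighborSet v).Finite) (hgrowth : ¬ HasLinearGrowth G) :
    maxInfiniteCells G = ⊤ := by
  by_contra hne
  obtain ⟨N, hN⟩ := ENat.ne_top_iff_exists.1 hne
  apply hgrowth
  refine ⟨2 * N, N, fun v r => ?_⟩
  have hT : ∀ T : Finset V, T.Nonempty → infiniteCells G T ≤ N := by
    intro T hT
    have h1 : (infiniteCells G T : ℕ∞) ≤ maxInfiniteCells G :=
      le_iSup₂_of_le (f := fun (T : Finset V) (_ : T.Nonempty) => (infiniteCells G T : ℕ∞))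
        T hT le_rfl
    rw [← hN] at h1
    exact_mod_cast h1
  calc (ball G v r).ncard ≤ (2 * r + 1) * N := ball_bound G hconn N hT v r
    _ = 2 * N * r + N := by ring

end Pool.Agent.Results.MP_2b3d15_co.InfinitelyManyCells
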